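import Pool.Agent.MP_bc14f3_gt.Defs

attribute [-instance] IsAddTorsionFree.of_isDomain_charZero instCharZeroOfIsSemireal
  DistribMulActionSemiHomClass.toAddMonoidHomClass littleWedderburn StarSubalgebra.cstarAlgebra
  NonarchimedeanRing.toIsTopologicalRing Fintype.decidableForallFintype
  Group.IsPerfect.subsingleton_of_isMulCommutative MonTypeEquivalenceMon.monMonoid
  ContinuousMap.instAddCommGroupContinuousMap IsAffineAddMonoid.toIsAddTorsionFree
  Option.instDecidableEq FiniteField.instGrindPowIdentity SemilinearMapClass.toAddHomClass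
  IsValuativeTopology.instValuedValueGroupWithZeroOfIsUniformAddGroup ProperSMul.toContinuousSMul
  instCoeTCOfCoe LeftPreLieAlgebra.toModule RightPreLieAlgebra.toModule
  NonarchimedeanAddGroup.toIsTopologicalAddGroup NumberField.to_charZero IdemSemiring.toSemiring
  GeneralizedCoheytingAlgebra.toLattice AddQuantale.instAddLeftMono DiscreteTopology.topologicalRing
  Valued.isTopologicalDivisionRing Torsor.toMulAction RCLike.charZero_rclike
  IsTopologicalTorsor.toContinuousSMul RKHS.instFunLike Topology.IsLowerSet.toAlexandrovDiscrete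
  FiniteDimensional.proper_real DiscreteUniformity.instDiscreteTopology
  Subtype.totallyDisconnectedSpace IdemSemiring.toCanonicallyOrderedAdd
  DenselyNormedField.toNormedField Order.Coframe.toCompleteLattice
  IsStrictOrderedRing.topologicalRing SemilatticeSup.toPartialOrder
  CompletelyDistribLattice.toCompleteLattice Finset.decidableDforallFinset
  BialgHomClass.toMonoidHomClass EuclideanDomain.toCommRing
  Action.FintypeCat.instMulActionObjFiniteOf ValuationRing.instIsBezout AddQuantale.instAddRightMono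
  LieRinehartAlgebra.toIsScalarTower OmegaCompletePartialOrder.toPartialOrder

-- part MP_bc14f3_gt.Run
section

namespace Pool.Agent.MP_bc14f3_gt

abbrev Lb (R : Type) := Bool × R × ℤ

def sg (o : Bool) : ℤ := if o then 1 else -1

def Move.sh : Move → Move
  | .cup i => .cup (i + 1)
  | .cap i => .cap (i + 1)
  | .cross i b => .cross (i + 1) b

def Move.flip : Move → Move
  | .cup i => .cap i
  | .cap i => .cup i
  | .cross i b => .cross i (!b)

variable {R : Type} [CommRing R]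

def crule (T : Bool → R) (τ o o' : Bool) (x y x' y' : R) : Prop :=
  if τ then x' = y ∧ y' = T o' * x + (1 - T o') * y else y' = x ∧ y = T o * x' + (1 - T o) * x

inductive Step (T : Bool → R) (E : Prop) : Bool → Move → List (Lb R) → List (Lb R) → Prop
  | cup (τ o c h h' l) : (E ∨ h = h' + sg o) →
      Step T E τ (.cup 0) l ((o, c, h) :: (!o, c, h') :: l)
  | cap (τ o c h h' l) : h' = h + sg o → Step T E τ (.cap 0) ((o, c, h) :: (!o, c, h') :: l) l
  | cross (τ o o' x y x' y' h h' l) : crule T τ o o' x y x' y' →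
      Step T E τ (.cross 0 τ) ((o, x, h) :: (o', y, h') :: l) ((o', x', h') :: (o, y', h) :: l)
  | sh (τ m z l l') : Step T E (!τ) m l l' → Step T E τ m.sh (z :: l) (z :: l')

inductive Run (T : Bool → R) (τ : Bool) : List Move → List (Lb R) → List (Lb R) → Prop
  | nil (l) : Run T τ [] l l
  | cons (m w l l₁ l') : Step T False τ m l l₁ → Run T τ w l₁ l' → Run T τ (m :: w) l l'

variable {T : Bool → R} {τ : Bool} {E : Prop}

theorem Run.append {w w' l l₁ l'} (h : Run T τ w l l₁) (h' : Run T τ w' l₁ l') :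
    Run T τ (w ++ w') l l' := by
  induction h with
  | nil l => simpa using h'
  | cons m w l l₁ l₂ s _ ih => exact Run.cons _ _ _ _ _ s (ih h')

theorem Run.one {m l l'} (s : Step T False τ m l l') : Run T τ [m] l l' :=
  Run.cons _ _ _ _ _ s (Run.nil _)

theorem Run.sh {w l l'} (z) (h : Run T (!τ) w l l') :
    Run T τ (w.map Move.sh) (z :: l) (z :: l') := by
  induction h with
  | nil l => exact Run.nil _
  | cons m w l l₁ l₂ s _ ih => exact Run.cons _ _ _ _ _ (Step.sh _ _ _ _ _ s) ih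

theorem Run.sh2 {w l l'} (z z') (h : Run T τ w l l') :
    Run T τ ((w.map Move.sh).map Move.sh) (z :: z' :: l) (z :: z' :: l') :=
  Run.sh _ (Run.sh _ (by simpa using h))

def ng (x : Lb R) : Lb R := (x.1, x.2.1, -x.2.2)

theorem Step.flip {m l l'} (s : Step T False τ m l l') :
    Step T False (!τ) m.flip (l'.map ng) (l.map ng) := by
  induction s with
  | cup τ o c h h' l H =>
    exact Step.cap _ _ _ _ _ _ (by simp at H ⊢; omega)
  | cap τ o c h h' l H =>
    exact Step.cup _ _ _ _ _ _ (by right; simp; omega)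
  | cross τ o o' x y x' y' h h' l H =>
    refine Step.cross _ _ _ _ _ _ _ _ _ _ ?_
    cases τ <;> simp only [crule] at H ⊢ <;> simp only [Bool.false_eq_true, ↓ reduceIte, Bool.not_false, Bool.not_true] at H ⊢ <;> grind
  | sh τ m z l l' _ ih =>
    have : m.sh.flip = m.flip.sh := by cases m <;> rfl
    rw [this]
    exact Step.sh _ _ _ _ _ ih

theorem Run.flip {w l l'} (h : Run T τ w l l') :
    Run T (!τ) (w.map Move.flip).reverse (l'.map ng) (l.map ng) := by
  induction h with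
  | nil l => exact Run.nil _
  | cons m w l l₁ l₂ s _ ih =>
    simp only [List.map_cons, List.reverse_cons]
    exact ih.append (Run.one s.flip)

def mp {S : Type} [CommRing S] (f : R →+* S) (x : Lb R) : Lb S := (x.1, f x.2.1, x.2.2)

theorem Step.map {S : Type} [CommRing S] (f : R →+* S) {m l l'} (s : Step T E τ m l l') :
    Step (fun b => f (T b)) E τ m (l.map (mp f)) (l'.map (mp f)) := by
  induction s with
  | cup τ o c h h' l H => exact Step.cup _ _ _ _ _ _ H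
  | cap τ o c h h' l H => exact Step.cap _ _ _ _ _ _ H
  | cross τ o o' x y x' y' h h' l H =>
    refine Step.cross _ _ _ _ _ _ _ _ _ _ ?_
    cases τ <;> simp only [crule] at H ⊢ <;> simp only [Bool.false_eq_true, ↓ reduceIte] at H ⊢ <;> simp only [H.1, H.2, map_add, map_mul, map_sub, map_one, and_self]
  | sh τ m z l l' _ ih => exact Step.sh _ _ _ _ _ ih

theorem Run.map {S : Type} [CommRing S] (f : R →+* S) {w l l'} (h : Run T τ w l l') :
    Run (fun b => f (T b)) τ w (l.map (mp f)) (l'.map (mp f)) := by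
  induction h with
  | nil l => exact Run.nil _
  | cons m w l l₁ l₂ s _ ih => exact Run.cons _ _ _ _ _ (s.map f) ih

theorem Run.levels {w l l'} (h : Run T τ w l l') : ∃ L : ℕ → List (Lb R), L 0 = l ∧
    L w.length = l' ∧ ∀ k m, w[k]? = some m → Step T False τ m (L k) (L (k + 1)) := by
  induction h with
  | nil l => exact ⟨fun _ => l, rfl, rfl, by simp⟩
  | cons m w l l₁ l₂ s _ ih =>
    obtain ⟨L, h0, h1, h2⟩ := ih
    refine ⟨fun k => Nat.rec l (fun k _ => L k) k, rfl, h1, ?_⟩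
    rintro (_ | k) m' hm
    · simp at hm; subst hm; simpa [h0] using s
    · exact h2 k m' (by simpa only [List.getElem?_cons_succ] using hm)

theorem Step.mono {E' : Prop} (hE : E → E') {m l l'} (s : Step T E τ m l l') :
    Step T E' τ m l l' := by
  induction s with
  | cup τ o c h h' l H => exact Step.cup _ _ _ _ _ _ (H.imp_left hE)
  | cap τ o c h h' l H => exact Step.cap _ _ _ _ _ _ H
  | cross τ o o' x y x' y' h h' l H => exact Step.cross _ _ _ _ _ _ _ _ _ _ H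
  | sh τ m z l l' _ ih => exact Step.sh _ _ _ _ _ ih

def Loc (T : Bool → R) (E : Prop) (τ : Bool) (l l' : List (Lb R)) : Move → Prop
  | .cup i => ∃ o c h h', l'[i]? = some (o, c, h) ∧ l'[i + 1]? = some (!o, c, h') ∧
      (E ∨ h = h' + sg o)
  | .cap i => ∃ o c h h', l[i]? = some (o, c, h) ∧ l[i + 1]? = some (!o, c, h') ∧ h' = h + sg o
  | .cross i b => (b = τ ↔ i % 2 = 0) ∧ ∃ o o' x y x' y' h h', l[i]? = some (o, x, h) ∧
      l[i + 1]? = some (o', y, h') ∧ l'[i]? = some (o', x', h') ∧ l'[i + 1]? = some (o, y', h) ∧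
      crule T b o o' x y x' y'

theorem Step.loc {m l l'} (s : Step T E τ m l l') : Loc T E τ l l' m ∧ m.Fits l.length ∧
    l'.length = m.top l.length ∧ ∀ j j', m.Thru j j' → l'[j']? = l[j]? := by
  induction s with
  | cup τ o c h h' l H =>
    refine ⟨⟨o, c, h, h', rfl, rfl, H⟩, by simp [Move.Fits], by simp [Move.top], ?_⟩
    rintro j j' (h | ⟨-, rfl⟩)
    · omega
    · simp only [List.getElem?_cons_succ]
  | cap τ o c h h' l H =>
    refine ⟨⟨o, c, h, h', rfl, rfl, H⟩, by simp [Move.Fits], by simp only [Move.top, List.length_cons, Nat.reduceSubDiff], ?_⟩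
    rintro j j' (h | ⟨-, rfl⟩)
    · omega
    · simp only [List.getElem?_cons_succ]
  | cross τ o o' x y x' y' h h' l H =>
    refine ⟨⟨by simp, o, o', x, y, x', y', h, h', rfl, rfl, rfl, rfl, H⟩, by simp [Move.Fits],
      by simp [Move.top], ?_⟩
    rintro (_ | _ | j) j' ⟨h1, h2, rfl⟩
    · omega
    · omega
    · simp only [List.getElem?_cons_succ]
  | sh τ m z l l' _ ih =>
    obtain ⟨h1, h2, h3, h4⟩ := ih
    have key : ∀ j j', m.sh.Thru j j' → (j = 0 ∧ j' = 0) ∨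
        ∃ i i', j = i + 1 ∧ j' = i' + 1 ∧ m.Thru i i' := by
      intro j j' H
      by_cases hj : j = 0
      · left; cases m <;> simp only [Move.sh, Move.Thru] at H <;> omega
      · right; refine ⟨j - 1, j' - 1, ?_⟩
        cases m <;> simp only [Move.sh, Move.Thru] at H ⊢ <;> omega
    refine ⟨?_, ?_, ?_, ?_⟩
    · cases m with
      | cup i => simpa only [Loc, Move.sh, List.getElem?_cons_succ, exists_and_left, Bool.exists_bool, Bool.not_false, Bool.not_true] using h1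
      | cap i => simpa only [Loc, Move.sh, ↓ existsAndEq, List.getElem?_cons_succ, and_true, Bool.exists_bool, Bool.not_false, Bool.not_true] using h1
      | cross i b =>
        refine ⟨?_, by simpa only [List.getElem?_cons_succ, exists_and_left, Bool.exists_bool] using h1.2⟩
        have := h1.1
        cases b <;> cases τ <;> simp at this ⊢ <;> omega
    · cases m <;> simp only [Move.sh, Move.Fits, List.length_cons] at h2 ⊢ <;> omega
    · cases m <;> simp only [Move.sh, Move.Fits, Move.top, List.length_cons] at h2 h3 ⊢ <;> omega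
    · intro j j' H
      rcases key j j' H with ⟨rfl, rfl⟩ | ⟨i, i', rfl, rfl, H'⟩
      · rfl
      · simpa only [List.getElem?_cons_succ] using h4 i i' H'

end Pool.Agent.MP_bc14f3_gt

end

-- part MP_bc14f3_gt.Tan
section

namespace Pool.Agent.MP_bc14f3_gt

variable {R : Type} [CommRing R]

def tc (κ : Bool) (k₁ k₂ h₁ h₂ h₃ h₄ : ℤ) : Prop :=
  if κ then h₃ = h₁ + k₁ ∧ h₂ = h₄ + k₂ else h₂ = h₁ + k₁ ∧ h₃ = h₄ + k₂

def Tan (T : Bool → R) (τ κ : Bool) (ρ : R) : Prop :=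
  ∃ w k₁ k₂, ∀ a b c d h₁ h₂ h₃ h₄ l, c - a = ρ * (b - a) → d - c = b - a → tc κ k₁ k₂ h₁ h₂ h₃ h₄ →
    Run T τ w ((true, a, h₁) :: (false, b, h₂) :: l) ((true, c, h₃) :: (false, d, h₄) :: l)

variable {T : Bool → R} {τ κ : Bool} {ρ ρ' : R}

theorem Tan.flip (H : Tan T τ true ρ) : Tan T (!τ) true (-ρ) := by
  obtain ⟨w, k₁, k₂, H⟩ := H
  refine ⟨(w.map Move.flip).reverse, k₁, k₂, fun a b c d h₁ h₂ h₃ h₄ l e₁ e₂ e₃ => ?_⟩
  have := (H c d a b (-h₃) (-h₄) (-h₁) (-h₂) (l.map ng) (by rw [e₂]; linear_combination -e₁)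
    e₂.symm (by simp only [tc, if_true] at *; omega)).flip
  have e : (l.map ng).map ng = l := by
    rw [List.map_map]; exact List.map_id'' (fun x => by simp [ng]) l
  simpa only [List.map_cons, ng, neg_neg, e] using this

theorem Tan.ser (H : Tan T τ true ρ) (H' : Tan T τ κ ρ') : Tan T τ κ (ρ + ρ') := by
  obtain ⟨w, k₁, k₂, H⟩ := H
  obtain ⟨w', k₁', k₂', H'⟩ := H'
  refine ⟨w ++ w', if κ then k₁ + k₁' else k₁ + k₁' + k₂, if κ then k₂ + k₂' else k₂',
    fun a b c d h₁ h₂ h₃ h₄ l e₁ e₂ e₃ => ?_⟩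
  refine (H a b (a + ρ * (b - a)) (b + ρ * (b - a)) h₁ h₂ (h₁ + k₁) (h₂ - k₂) l (by ring) (by ring)
    (by simp [tc])).append (H' _ _ _ _ _ _ _ _ _ (by linear_combination e₁)
    (by linear_combination e₂) ?_)
  cases κ <;> simp [tc] at e₃ ⊢ <;> omega

theorem Tan.par {r : R} (H : Tan T τ κ ρ) (H' : Tan T τ false ρ') (hr : (ρ + ρ') * r = 1) :
    Tan T τ κ (ρ * ρ' * r) := by
  obtain ⟨w, k₁, k₂, H⟩ := H
  obtain ⟨w', k₁', k₂', H'⟩ := H'
  refine ⟨(Move.cup 0).sh :: (w ++ ((w'.map Move.sh).map Move.sh ++ [(Move.cap 0).sh])),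
    if κ then k₁ else k₁ + 1 + k₁', if κ then k₂' + 1 + k₂ + 1 + k₁' else k₂' + 1 + k₂,
    fun a b c d h₁ h₂ h₃ h₄ l e₁ e₂ e₃ => ?_⟩
  refine Run.cons _ _ _ _ _ (Step.sh _ _ _ _ _ (Step.cup _ false (a + ρ' * r * (b - a))
    (h₂ - k₁' - 1) (h₂ - k₁') _ (by simp [sg]; omega))) ?_
  refine (H _ _ c (c + ρ' * r * (b - a)) _ _ h₃ (h₄ + k₂' + 1) _ (by linear_combination e₁)
    (by ring) (by cases κ <;> simp [tc] at e₃ ⊢ <;> omega)).append ?_
  refine (Run.sh2 _ _ (H' _ _ (c + ρ' * r * (b - a)) d _ _ (h₄ + k₂') h₄ _ ?_ ?_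
    (by simp [tc]))).append (Run.one (Step.sh _ _ _ _ _ (Step.cap _ false _ _ _ _ (by simp [sg]))))
  · linear_combination e₁ + ρ' * (b - a) * hr
  · linear_combination e₂

def tw (n : ℕ) : List Move := List.replicate n (.cross 0 true)

theorem twist (o : Bool) (n : ℕ) : ∀ a b c d h₁ h₂ h₃ h₄ l,
    c - a = (∑ i ∈ Finset.range n, (-T o) ^ i) * (b - a) → d - c = (-T o) ^ n * (b - a) →
    (if n % 2 = 0 then h₃ = h₁ ∧ h₄ = h₂ else h₃ = h₂ ∧ h₄ = h₁) →
    Run T true (tw n) ((o, a, h₁) :: (o, b, h₂) :: l) ((o, c, h₃) :: (o, d, h₄) :: l) := by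
  induction n with
  | zero =>
    intro a b c d h₁ h₂ h₃ h₄ l e₁ e₂ e₃
    obtain rfl : c = a := by simpa only [Finset.range_zero, Finset.sum_empty, zero_mul, sub_eq_zero] using e₁
    obtain rfl : d = b := by simpa using e₂
    obtain ⟨rfl, rfl⟩ : h₃ = h₁ ∧ h₄ = h₂ := by simpa using e₃
    exact Run.nil _
  | succ n ih =>
    intro a b c d h₁ h₂ h₃ h₄ l e₁ e₂ e₃
    refine Run.cons _ _ _ _ _ (Step.cross true o o a b b (T o * a + (1 - T o) * b) _ _ _
      (by simp [crule])) (ih _ _ _ _ _ _ _ _ _ ?_ ?_ ?_)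
    · rw [Finset.sum_range_succ', Finset.sum_congr rfl fun i _ => pow_succ (-T o) i,
        ← Finset.sum_mul] at e₁
      linear_combination e₁
    · linear_combination e₂
    · split_ifs at e₃ ⊢ <;> omega

structure Par (T : Bool → R) (u v g : R) : Prop where
  hu : T true = -u
  hv : T false = -v
  uv : u * v = 1
  gu : g * (u - 1) = 1

variable {u v g : R}

theorem Par.row (P : Par T u v g) (n n' : ℕ) (x₀ x₁ x₂ x₃ y₀ y₁ y₂ y₃ : R)
    (h₀ h₁ h₂ h₃ g₀ g₁ g₂ g₃ : ℤ) (l) (e₁ : x₁ - x₀ = v ^ n * (y₁ - y₀))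
    (e₂ : y₀ - x₀ = g * (1 - v ^ n) * (y₁ - y₀)) (e₃ : y₂ - x₂ = u * g * (1 - v ^ n') * (x₃ - x₂))
    (e₄ : y₃ - y₂ = v ^ n' * (x₃ - x₂))
    (t₁ : if n % 2 = 0 then g₀ = h₀ ∧ g₁ = h₁ else g₀ = h₁ ∧ g₁ = h₀)
    (t₂ : if n' % 2 = 0 then g₂ = h₂ ∧ g₃ = h₃ else g₂ = h₃ ∧ g₃ = h₂) :
    Run T true (tw n ++ ((tw n').map Move.sh).map Move.sh)
      ((true, x₀, h₀) :: (true, x₁, h₁) :: (false, x₂, h₂) :: (false, x₃, h₃) :: l)
      ((true, y₀, g₀) :: (true, y₁, g₁) :: (false, y₂, g₂) :: (false, y₃, g₃) :: l) := by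
  have hn : u ^ n * v ^ n = 1 := by rw [← mul_pow, P.uv, one_pow]
  have s₁ := geom_sum_mul u n
  have s₂ := geom_sum_mul v n'
  have := P.uv; have := P.gu
  refine (twist true n _ _ y₀ y₁ _ _ g₀ g₁ _ ?_ ?_ t₁).append
    (Run.sh2 _ _ (twist false n' _ _ _ _ _ _ _ _ _ ?_ ?_ t₂))
  all_goals simp only [P.hu, P.hv, neg_neg]
  all_goals grind

def Bot (T : Bool → R) (v : R) (κ : Bool) (p : R × R × R × R) : Prop :=
  ∃ w K₁ K₂, ∀ a b x₀ x₁ x₂ x₃ h₁ h₂ g₀ g₁ g₂ g₃ l,
    x₂ - x₁ = p.1 * (x₁ - x₀) + p.2.1 * (b - a) → x₀ - a = p.2.2.1 * (x₁ - x₀) + p.2.2.2 * (b - a) →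
    x₃ - x₂ = b - a - (x₁ - x₀) - (1 - v) * (x₂ - x₁) → g₁ = h₁ + K₁ →
    (if κ then g₀ = g₂ + K₂ + 1 ∧ h₂ = g₃ else g₀ = g₃ + 1 ∧ h₂ = g₂ + K₂) →
    Run T true w ((true, a, h₁) :: (false, b, h₂) :: l)
      ((true, x₀, g₀) :: (true, x₁, g₁) :: (false, x₂, g₂) :: (false, x₃, g₃) :: l)

theorem Par.base (P : Par T u v g) (κ : Bool) (n n' : ℕ) (hn : n % 2 = 1)
    (hn' : n' % 2 = if κ then 0 else 1) :
    Bot T v κ (u * g * (v ^ n * v ^ n' - 1), u * g * (1 - v ^ n'), g * (1 - v ^ n), 0) := by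
  refine ⟨(Move.cup 0).sh :: (tw n ++ ((tw n').map Move.sh).map Move.sh), 0, 0,
    fun a b x₀ x₁ x₂ x₃ h₁ h₂ g₀ g₁ g₂ g₃ l e₁ e₂ e₃ t₁ t₂ => ?_⟩
  have := P.uv; have := P.gu
  refine Run.cons _ _ _ _ _ (Step.sh _ _ _ _ _ (Step.cup _ true (a + v ^ n * (x₁ - x₀))
    g₀ (g₀ - 1) _ (by simp [sg]))) (P.row n n' _ _ _ _ _ _ _ _ _ _ _ _ _ _ _ _ _ ?_ ?_ ?_ ?_ ?_ ?_)
  · ring
  · grind
  · grind
  · grind
  · simp [hn]; omega
  · cases κ <;> simp at hn' t₂ <;> simp [hn'] <;> omega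

theorem Par.step (P : Par T u v g) {α β A B r : R} (H : Bot T v κ (α, β, A, B))
    (H' : Tan T true true ρ) (n : ℕ) (hr : (1 - ρ * α) * r = 1) :
    Bot T v κ (u * g * (v ^ (2 * n) * v ^ (2 * n) * (1 + (1 - v) * α * r) - 1),
      u * g * (1 - v ^ (2 * n) * (1 - (1 - v) * β * r)), A * r * v ^ (2 * n) + g * (1 - v ^ (2 * n)),
      B + A * r * ρ * β) := by
  obtain ⟨w, K₁, K₂, H⟩ := H
  obtain ⟨w', k₁, k₂, H'⟩ := H'.flip
  refine ⟨w ++ (w'.map Move.sh ++ (tw (2 * n) ++ ((tw (2 * n)).map Move.sh).map Move.sh)),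
    K₁ + k₁, K₂ + k₂, fun a b y₀ y₁ y₂ y₃ h₁ h₂ g₀ g₁ g₂ g₃ l e₁ e₂ e₃ t₁ t₂ => ?_⟩
  have hg := P.gu
  have h1 : u * g * (1 - v) = 1 := by linear_combination hg - g * P.uv
  simp only at e₁ e₂
  obtain ⟨q, hq⟩ : ∃ q, q = v ^ (2 * n) := ⟨_, rfl⟩
  rw [← hq] at e₁ e₂
  obtain ⟨J, hJ⟩ : ∃ J, J = r * (q * (y₁ - y₀) + ρ * β * (b - a)) := ⟨_, rfl⟩
  obtain ⟨m, hm⟩ : ∃ m, m = α * J + β * (b - a) := ⟨_, rfl⟩
  obtain ⟨x, hx⟩ : ∃ x, x = a + A * J + B * (b - a) := ⟨_, rfl⟩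
  have c₁ : J - ρ * m = q * (y₁ - y₀) := by
    linear_combination (-ρ) * hm + (1 - ρ * α) * hJ + (q * (y₁ - y₀) + ρ * β * (b - a)) * hr
  have c₂ : m = α * r * q * (y₁ - y₀) + r * β * (b - a) := by
    linear_combination hm + α * hJ - β * (b - a) * hr
  have c₃ : y₀ - x = g * (1 - q) * (y₁ - y₀) := by linear_combination e₂ - hx - A * hJ
  have c₄ : y₂ - y₁ = u * g * (b - a - (y₁ - y₀) - q * (b - a - (1 - v) * m - q * (y₁ - y₀))) := by
    linear_combination e₁ - u * g * q * (1 - v) * c₂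
  refine (H a b x (x + J) (x + J + m) (x + m + (b - a) - (1 - v) * m) h₁ h₂ g₀ (h₁ + K₁) (g₂ + k₂) g₃
    l (by rw [hm]; ring) (by rw [hx]; ring) (by ring) rfl ?_).append ((Run.sh _ (H' _ _
    (x + J - ρ * m) (x + J + m - ρ * m) _ _ g₁ g₂ _ (by ring) (by ring) ?_)).append
    (P.row _ _ _ _ _ _ _ _ _ _ _ _ _ _ _ _ _ _ _ ?_ ?_ ?_ ?_ (by simp) (by simp)))
  · cases κ <;> simp at t₂ ⊢ <;> omega
  · simp [tc]; omega
  all_goals rw [← hq]
  · linear_combination c₁
  · exact c₃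
  · linear_combination c₄ + c₃ - (1 - u * g * (1 - q)) * c₁ - (1 - q) * (y₁ - y₀) * hg + m * h1
  · linear_combination e₃ - (1 - v) * c₄ + q * c₁ -
      (b - a - (y₁ - y₀) - q * (b - a - (1 - v) * m - q * (y₁ - y₀))) * h1

theorem Bot.top {α β A B r : R} (H : Bot T v κ (α, β, A, B)) (hr : α * r = 1) :
    Tan T true κ (B - A * r * β) := by
  obtain ⟨w, K₁, K₂, H⟩ := H
  refine ⟨w ++ [(Move.cap 0).sh], if κ then K₁ + K₂ + 2 else K₁ + K₂ + 1, if κ then 0 else 1,
    fun a b c d h₁ h₂ h₃ h₄ l e₁ e₂ e₃ => ?_⟩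
  refine (H a b c (c - r * β * (b - a)) (c - r * β * (b - a)) d h₁ h₂ h₃ (h₁ + K₁) (h₁ + K₁ + 1) h₄ l
    (by grind) (by grind) (by grind) rfl ?_).append
    (Run.one (Step.sh _ _ _ _ _ (Step.cap _ true _ _ _ _ (by simp [sg]))))
  cases κ <;> simp [tc] at e₃ ⊢ <;> omega

end Pool.Agent.MP_bc14f3_gt

end

-- part MP_bc14f3_gt.Lim
section

namespace Pool.Agent.MP_bc14f3_gt

open Filter Topology

set_option linter.unusedSectionVars false

theorem cl_map {X Y : Type} [TopologicalSpace X] [TopologicalSpace Y] {S : Set X} {S' : Set Y}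
    (f : X → Y) {p : X} (hp : p ∈ closure S) (hf : ContinuousAt f p)
    (h : ∀ᶠ x in 𝓝 p, x ∈ S → f x ∈ S') : f p ∈ closure S' :=
  mem_closure_of_frequently_of_tendsto
    (((mem_closure_iff_frequently.1 hp).and_eventually h).mono fun _ h => h.2 h.1) hf

variable {A : Type} [NormedCommRing A] [NormedAlgebra ℂ A] [CompleteSpace A]

theorem loc_inv {X : Type} [TopologicalSpace X] (e : X → A) (p : X) (r₀ : A) (he : Continuous e)
    (h : e p * r₀ = 1) :
    ∃ r : X → A, ContinuousAt r p ∧ r p = r₀ ∧ ∀ᶠ x in 𝓝 p, e x * r x = 1 := by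
  have hu : IsUnit (e p) := IsUnit.of_mul_eq_one _ h
  refine ⟨fun x => Ring.inverse (e x), ?_, ?_, ?_⟩
  · obtain ⟨x, hx⟩ := hu
    exact ContinuousAt.comp (f := e) (hx ▸ NormedRing.inverse_continuousAt x) he.continuousAt
  · have := Ring.inverse_mul_cancel _ hu
    linear_combination r₀ * this - Ring.inverse (e p) * h
  · exact (he.continuousAt.eventually (Units.isOpen.mem_nhds hu)).mono
      fun x hx => Ring.mul_inverse_cancel _ hx

def Good (T : Bool → A) (ρ : A) : Prop := ∀ κ, ρ ∈ closure {x | Tan T true κ x}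

variable {T : Bool → A} {u v g ρ ρ' : A}

theorem Good.lim {X : Type} {F : Filter X} [F.NeBot] {f : X → A} (h : Tendsto f F (𝓝 ρ))
    (hf : ∀ᶠ x in F, Good T (f x)) : Good T ρ :=
  fun κ => isClosed_closure.mem_of_tendsto h (hf.mono fun _ h => h κ)

theorem Good.add (H : Good T ρ) (H' : Good T ρ') : Good T (ρ + ρ') := fun κ =>
  map_mem_closure₂ continuous_add (H true) (H' κ) fun _ h _ h' => Tan.ser h h'

theorem Good.par {r : A} (H : Good T ρ) (H' : Good T ρ') (hr : (ρ + ρ') * r = 1) :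
    Good T (ρ * ρ' * r) := by
  intro κ
  obtain ⟨s, h1, h2, h3⟩ := loc_inv (fun x : A × A => x.1 + x.2) (ρ, ρ') r (by fun_prop) hr
  rw [← h2]
  exact cl_map (fun x : A × A => x.1 * x.2 * s x) (p := (ρ, ρ'))
    (S := {x | Tan T true κ x} ×ˢ {x | Tan T true false x})
    (by rw [closure_prod_eq]; exact ⟨H κ, H' false⟩) (by fun_prop)
    (h3.mono fun x hx h => Tan.par h.1 h.2 hx)

theorem Good.mul (H : Good T ρ) (n : ℕ) : Good T (((n + 1 : ℕ) : ℂ) • ρ) := by
  induction n with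
  | zero => simpa using H
  | succ n ih => rw [Nat.cast_succ, add_smul, one_smul]; exact ih.add H

theorem Good.div (H : Good T ρ) (hu : IsUnit ρ) (n : ℕ) : Good T (((n + 1 : ℕ) : ℂ)⁻¹ • ρ) := by
  obtain ⟨s, hs⟩ := hu.exists_right_inv
  induction n with
  | zero => simpa using H
  | succ n ih =>
    have h1 : ((n + 1 : ℕ) : ℂ) ≠ 0 := Nat.cast_ne_zero.2 (by omega)
    have h2 : ((n + 1 + 1 : ℕ) : ℂ) ≠ 0 := Nat.cast_ne_zero.2 (by omega)
    have := ih.par H (r := (((n + 1 : ℕ) : ℂ) * ((n + 1 + 1 : ℕ) : ℂ)⁻¹) • s) (by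
      nth_rw 2 [← one_smul ℂ ρ]
      rw [← add_smul, smul_mul_smul_comm, hs]
      convert one_smul ℂ (1 : A)
      field_simp; push_cast; ring)
    rw [smul_mul_assoc, smul_mul_smul_comm, mul_assoc ρ, hs, mul_one] at this
    convert this using 2
    field_simp

theorem Good.smul (H : Good T ρ) (hu : IsUnit ρ) {c : ℝ} (hc : 0 < c) : Good T ((c : ℂ) • ρ) := by
  have h1 := (tendsto_nat_ceil_mul_div_atTop hc.le).comp
    (tendsto_natCast_atTop_atTop.comp (tendsto_add_atTop_nat 1))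
  refine Good.lim (((Complex.continuous_ofReal.tendsto c).comp h1).smul_const ρ)
    (Eventually.of_forall fun n => ?_)
  obtain ⟨m, hm⟩ := Nat.exists_eq_add_one_of_ne_zero
    (Nat.ceil_pos.2 (by positivity : 0 < c * ((n + 1 : ℕ) : ℝ))).ne'
  have := (H.div hu n).mul m
  rw [smul_smul] at this
  simpa only [Function.comp, hm, Complex.ofReal_div, Complex.ofReal_natCast, div_eq_mul_inv,
    Complex.ofReal_mul, Complex.ofReal_inv] using this

theorem Par.chan (P : Par T u v g) (hv : ‖v‖ < 1) {r : A}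
    (H : ρ ∈ closure {x | Tan T true true x}) (hr : (1 + ρ * (u * g)) * r = 1) (N : ℕ) :
    Good T (g + (N : ℂ) • (g * r * ρ * (u * g))) := by
  intro κ
  have hq : ∀ e, Tendsto (fun n => v ^ (2 * n + e)) atTop (𝓝 0) := fun e =>
    (tendsto_pow_atTop_nhds_zero_of_norm_lt_one hv).comp
      (tendsto_atTop_mono (fun n => by simp; omega) tendsto_id)
  have key : (-(u * g), u * g, g, (N : ℂ) • (g * r * ρ * (u * g))) ∈ closure {p | Bot T v κ p} := by
    induction N with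
    | zero =>
      have := (Continuous.tendsto (f := fun x : A × A =>
        (u * g * (x.1 * x.2 - 1), u * g * (1 - x.2), g * (1 - x.1), (0 : A))) (by fun_prop) _).comp
        ((hq 1).prodMk_nhds (hq (if κ then 0 else 1)))
      have := mem_closure_of_tendsto (s := {p | Bot T v κ p}) this (Eventually.of_forall fun n =>
        P.base κ (2 * n + 1) (2 * n + if κ then 0 else 1) (by omega) (by cases κ <;> simp))
      simpa only [CharP.cast_eq_zero, zero_smul, mul_zero, zero_sub, mul_neg, mul_one, sub_zero] using this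
    | succ N ih =>
      obtain ⟨s, h1, h2, h3⟩ := loc_inv (fun x : A × A × A × A × A × A => 1 - x.2.1 * x.2.2.1)
        (0, ρ, -(u * g), u * g, g, (N : ℂ) • (g * r * ρ * (u * g))) r (by fun_prop)
        (by simpa only [mul_neg, sub_neg_eq_add] using hr)
      have := cl_map (S' := {p | Bot T v κ p}) (fun x : A × A × A × A × A × A =>
        (u * g * (x.1 * x.1 * (1 + (1 - v) * x.2.2.1 * s x) - 1),
          u * g * (1 - x.1 * (1 - (1 - v) * x.2.2.2.1 * s x)),
          x.2.2.2.2.1 * s x * x.1 + g * (1 - x.1), x.2.2.2.2.2 + x.2.2.2.2.1 * s x * x.2.1 * x.2.2.2.1))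
        (S := (Set.range fun n => v ^ (2 * n)) ×ˢ {x | Tan T true true x} ×ˢ {p | Bot T v κ p})
        (by
          rw [closure_prod_eq, closure_prod_eq]
          exact ⟨mem_closure_of_tendsto (hq 0) (Eventually.of_forall fun n => ⟨n, rfl⟩), H, ih⟩)
        (by fun_prop) (h3.mono (by
          rintro ⟨_, y, a, b, c, d⟩ hx ⟨⟨n, rfl⟩, h, h'⟩
          exact P.step h' h n hx))
      simpa only [Nat.cast_add, Nat.cast_one, add_smul, one_smul, mul_zero, mul_neg, h2, neg_mul, zero_mul, zero_sub, mul_one, sub_zero, zero_add] using this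
  have hg := P.gu
  have huv := P.uv
  obtain ⟨s, h1, h2, h3⟩ := loc_inv (fun x : A × A × A × A => x.1)
    (-(u * g), u * g, g, (N : ℂ) • (g * r * ρ * (u * g))) (v - 1) (by fun_prop)
    (by linear_combination hg - g * huv)
  have := cl_map (S' := {x | Tan T true κ x}) (fun x => x.2.2.2 - x.2.2.1 * s x * x.2.1) key
    (by fun_prop) (h3.mono fun x hx h => Bot.top h hx)
  convert this using 1
  simp only [h2]
  linear_combination g * g * huv - g * hg

theorem Par.good (P : Par T u v g) (hv : ‖v‖ < 1) (k : ℕ) : Good T (g * (u * g * g) ^ k) := by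
  have hg : IsUnit g := IsUnit.of_mul_eq_one _ P.gu
  have hw : IsUnit (u * g * g) := ((IsUnit.of_mul_eq_one _ P.uv).mul hg).mul hg
  induction k with
  | zero =>
    simpa using P.chan hv (ρ := 0) (r := 1) (subset_closure ⟨[], 0, 0, by
      intro a b c d h₁ h₂ h₃ h₄ l e₁ e₂ e₃
      obtain rfl : c = a := by linear_combination e₁
      obtain rfl : d = b := by linear_combination e₂
      obtain ⟨rfl, rfl⟩ : h₃ = h₁ ∧ h₂ = h₄ := by simpa [tc] using e₃
      exact Run.nil _⟩) (by simp) 0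
  | succ k ih =>
    have hρ := hg.mul (hw.pow k)
    rw [pow_succ, ← mul_assoc]
    generalize g * (u * g * g) ^ k = ρ at ih hρ
    obtain ⟨s, h1, h2, h3⟩ := loc_inv (fun x : ℂ => 1 + x • ρ * (u * g)) 0 1 (by fun_prop) (by simp)
    have h0 : Tendsto (fun n : ℕ => ((n + 1 : ℕ) : ℂ)⁻¹) atTop (𝓝 0) :=
      (tendsto_inv_atTop_nhds_zero_nat (𝕜 := ℂ)).comp (tendsto_add_atTop_nat 1)
    have hc : ContinuousAt (fun x : ℂ => x • g + g * s x * ρ * (u * g)) 0 := by fun_prop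
    have hl := hc.tendsto.comp h0
    have e : (0 : ℂ) • g + g * s 0 * ρ * (u * g) = ρ * (u * g * g) := by simp [h2]; ring
    simp only [e] at hl
    refine Good.lim hl ?_
    filter_upwards [h0.eventually h3, hl.eventually (Units.isOpen.mem_nhds (hρ.mul hw))]
      with n a1 a2
    have h1 : ((n + 1 : ℕ) : ℂ) ≠ 0 := Nat.cast_ne_zero.2 (by omega)
    have := P.chan hv (ih.div hρ n true) a1 ((n + 1) ^ 2)
    have e' : g + (((n + 1) ^ 2 : ℕ) : ℂ) • (g * s ((n + 1 : ℕ) : ℂ)⁻¹ * ((n + 1 : ℕ) : ℂ)⁻¹ • ρ *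
        (u * g)) = ((n + 1 : ℕ) : ℂ) • (((n + 1 : ℕ) : ℂ)⁻¹ • g + g * s ((n + 1 : ℕ) : ℂ)⁻¹ * ρ *
        (u * g)) := by
      rw [smul_add, smul_inv_smul₀ h1, mul_smul_comm, smul_mul_assoc, smul_smul, Nat.cast_pow]
      congr 2
      field_simp
    rw [e'] at this
    have := this.div (by rw [Algebra.smul_def]; exact ((IsUnit.mk0 _ h1).map _).mul a2) n
    rwa [inv_smul_smul₀ h1] at this

end Pool.Agent.MP_bc14f3_gt

end

-- part MP_bc14f3_gt.Glob
section

namespace Pool.Agent.MP_bc14f3_gt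

structure Lv (T : Bool → ℂ) (w : List Move) (L : ℕ → List (Lb ℂ)) : Prop where
  hT : T true * T false = 1
  h0 : L 0 = []
  hN : L w.length = []
  hs : ∀ k m, w[k]? = some m → Step T (k = 0) true m (L k) (L (k + 1))
  h1 : ∃ c h c' h', L 1 = [(true, c, h), (false, c', h')]

variable {T : Bool → ℂ} {w : List Move} {L : ℕ → List (Lb ℂ)}

theorem Lv.wd (H : Lv T w L) : ∀ k, k ≤ w.length → width w k = (L k).length := by
  intro k
  induction k with
  | zero => intro _; simp [width, H.h0]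
  | succ k ih =>
    intro hk
    have hm : w[k]? = some w[k] := List.getElem?_eq_getElem (by omega)
    rw [(H.hs k _ hm).loc.2.2.1, ← ih (by omega)]
    simp only [width, List.take_add_one, hm, Option.toList_some, List.foldl_append,
      List.foldl_cons, List.foldl_nil]

theorem Lv.closed (H : Lv T w L) : Closed w := by
  refine ⟨fun k m hm => ?_, by rw [H.wd _ le_rfl, H.hN]; rfl⟩
  rw [H.wd k (List.getElem?_eq_some_iff.1 hm).1.le]
  exact (H.hs k m hm).loc.2.1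

noncomputable def lab (L : ℕ → List (Lb ℂ)) (p : Pt w) : Lb ℂ := (L p.1).getD p.2 default

theorem Lv.spec (H : Lv T w L) (p : Pt w) : (L p.1)[(p.2 : ℕ)]? = some (lab L p) := by
  have : (p.2 : ℕ) < (L p.1).length := by rw [← H.wd _ (by omega)]; exact p.2.2
  simp [lab, List.getD, List.getElem?_eq_getElem this]

theorem lab_eq {p : Pt w} {k j x} (hk : (p.1 : ℕ) = k) (hj : (p.2 : ℕ) = j)
    (h : (L k)[j]? = some x) : lab L p = x := by
  simp [lab, List.getD, hk, hj, h]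

theorem Lv.pt (H : Lv T w L) {k j x} (hk : k ≤ w.length) (h : (L k)[j]? = some x) :
    ∃ p : Pt w, (p.1 : ℕ) = k ∧ (p.2 : ℕ) = j ∧ lab L p = x := by
  have : j < width w k := by rw [H.wd k hk]; exact (List.getElem?_eq_some_iff.1 h).1
  exact ⟨⟨⟨k, by omega⟩, ⟨j, this⟩⟩, rfl, rfl, lab_eq rfl rfl h⟩

theorem Lv.thru (H : Lv T w L) {p q : Pt w} (h : Thru p q) : lab L q = lab L p := by
  obtain ⟨m, hm, hq, ht⟩ := h
  exact lab_eq hq rfl (((H.hs _ m hm).loc.2.2.2 _ _ ht).trans (H.spec p))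

theorem Lv.turn (H : Lv T w L) {p q : Pt w} (h : Turn p q) :
    (lab L q).1 = !(lab L p).1 ∧ (lab L q).2.1 = (lab L p).2.1 := by
  obtain ⟨h1, h2, hm | ⟨k, hk, hm⟩⟩ := h
  · obtain ⟨o, c, h, h', e1, e2, -⟩ := (H.hs _ _ hm).loc.1
    simp [lab_eq rfl rfl e1, lab_eq h1 h2 e2]
  · obtain ⟨o, c, h, h', e1, e2, -⟩ := (H.hs _ _ hm).loc.1
    simp [lab_eq hk rfl e1, lab_eq (h1.trans hk) h2 e2]

theorem Lv.cross (H : Lv T w L) {b} {a a' u u' : Pt w} (h : Cross b a a' u u') :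
    (lab L a').1 = (lab L a).1 ∧ (lab L a').2.2 = (lab L a).2.2 ∧ (lab L u').1 = (lab L u).1 ∧
    (lab L u').2.2 = (lab L u).2.2 ∧ (lab L a').2.1 = (lab L a).2.1 ∧
    (a.2 : ℕ) % 2 = 1 ∧ (a'.2 : ℕ) % 2 = 0 ∧ (u.2 : ℕ) % 2 = 0 ∧ (u'.2 : ℕ) % 2 = 1 ∧
    if b then (lab L u').2.1 = T (lab L a).1 * (lab L u).2.1 + (1 - T (lab L a).1) * (lab L a).2.1
    else (lab L u).2.1 = T (lab L a).1 * (lab L u').2.1 + (1 - T (lab L a).1) * (lab L a).2.1 := by
  obtain ⟨k, i, hm, a1, u1, a1', u1', a2, u2', u2, a2'⟩ := h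
  obtain ⟨hb, o, o', x, y, x', y', h, h', e1, e2, e3, e4, hr⟩ := (H.hs _ _ hm).loc.1
  cases b
  · simp only [Bool.false_eq_true, if_false, crule, false_iff] at *
    simp only [lab_eq a1 a2 e1, lab_eq u1 u2 e2, lab_eq u1' (u2'.trans a2) e3,
      lab_eq a1' (a2'.trans u2) e4, hr.1, true_and]
    refine ⟨by omega, by omega, by omega, by omega, hr.2⟩
  · simp only [if_true, crule, true_iff] at *
    simp only [lab_eq a1 a2 e2, lab_eq u1 u2 e1, lab_eq u1' (u2'.trans a2) e4,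
      lab_eq a1' (a2'.trans u2) e3, hr.1, true_and]
    refine ⟨by omega, by omega, by omega, by omega, hr.2⟩

theorem Lv.alt (H : Lv T w L) : IsAlternating w := by
  refine ⟨fun p => decide ((p.2 : ℕ) % 2 = 1), ?_, ?_, ?_⟩
  · rintro p q ⟨m, -, -, h⟩
    have : (p.2 : ℕ) % 2 = q.2 % 2 := by cases m <;> simp only [Move.Thru] at h <;> omega
    simp [this]
  · rintro p q ⟨-, h, -⟩
    simp only [ne_eq, decide_eq_decide]; omega
  · intro b a a' u u' h
    obtain ⟨-, -, -, -, -, h1, h2, h3, h4, -⟩ := H.cross h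
    simp [h1, h2, h3, h4]

noncomputable def ori (L : ℕ → List (Lb ℂ)) (φ : Bool) (p : Pt w) : Bool := xor φ (lab L p).1

theorem Lv.orient (H : Lv T w L) (φ : Bool) : IsOrientation (w := w) (ori L φ) := by
  refine ⟨fun p q h => by simp [ori, H.thru h], fun p q h => ?_, fun b a a' u u' h => ?_⟩
  · simp [ori, (H.turn h).1]
  · simp [ori, (H.cross h).1, (H.cross h).2.2.1]

theorem Lv.col (H : Lv T w L) (φ : Bool) {a b c : Pt w} (h : Rel (ori L φ) a b c) :
    (lab L c).2.1 = T (!φ) * (lab L b).2.1 + (1 - T (!φ)) * (lab L a).2.1 := by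
  rcases h with ⟨rfl, h | h⟩ | ⟨s, a', u, u', h, h'⟩
  · rw [H.thru h]; ring
  · rw [(H.turn h).2]; ring
  obtain ⟨-, -, -, -, h5, -, -, -, -, h6⟩ := H.cross h
  have hT := H.hT
  rcases h' with ⟨rfl, rfl⟩ | ⟨h1, rfl, rfl⟩ | ⟨h1, rfl, rfl⟩
  · rw [h5]; ring
  · simp only [ori] at h1
    generalize (lab L a).1 = ω at *
    cases s <;> cases φ <;> cases ω <;> simp at h1 h6 ⊢ <;> grind
  · simp only [ori] at h1
    generalize (lab L a).1 = ω at *
    cases s <;> cases φ <;> cases ω <;> simp at h1 h6 ⊢ <;> grind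

def Link (m : Move) (j j' : ℕ) : Prop :=
  m.Thru j j' ∨ ∃ i b, m = .cross i b ∧ ((j = i ∧ j' = i + 1) ∨ (j = i + 1 ∧ j' = i))

theorem Lv.link (H : Lv T w L) {p q : Pt w} {m} (hm : w[(p.1 : ℕ)]? = some m)
    (hq : (q.1 : ℕ) = p.1 + 1) (h : Link m p.2 q.2) :
    Join p q ∧ (lab L q).1 = (lab L p).1 ∧ (lab L q).2.2 = (lab L p).2.2 := by
  rcases h with h | ⟨i, b, rfl, h⟩
  · have : Thru p q := ⟨m, hm, hq, h⟩
    exact ⟨Or.inl this, by simp [H.thru this]⟩
  obtain ⟨-, o, o', x, y, x', y', g, g', e1, e2, e3, e4, -⟩ := (H.hs _ _ hm).loc.1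
  have hk := q.1.2
  have key : ∃ x y, Cross b p q x y ∨ Cross b x y p q := by
    rcases h with h | h
    · obtain ⟨x, x1, x2, -⟩ := H.pt (by omega) e2
      obtain ⟨y, y1, y2, -⟩ := H.pt (by omega) e3
      refine ⟨x, y, ?_⟩
      cases b
      · exact Or.inl ⟨_, i, hm, rfl, x1, hq, y1, by simp [h], by omega, by simp [x2], by omega⟩
      · exact Or.inr ⟨_, i, hm, x1, rfl, y1, hq, by simp [x2], by omega, by simp [h], by omega⟩
    · obtain ⟨x, x1, x2, -⟩ := H.pt (by omega) e1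
      obtain ⟨y, y1, y2, -⟩ := H.pt (by omega) e4
      refine ⟨x, y, ?_⟩
      cases b
      · exact Or.inr ⟨_, i, hm, x1, rfl, y1, hq, by simp [x2], by omega, by simp [h], by omega⟩
      · exact Or.inl ⟨_, i, hm, rfl, x1, hq, y1, by simp [h], by omega, by simp [x2], by omega⟩
  obtain ⟨x, y, hc⟩ := key
  refine ⟨Or.inr (Or.inr ⟨b, x, y, hc⟩), ?_⟩
  rcases hc with hc | hc
  · exact ⟨(H.cross hc).1, (H.cross hc).2.1⟩
  · exact ⟨(H.cross hc).2.2.1, (H.cross hc).2.2.2.1⟩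

noncomputable def mu (L : ℕ → List (Lb ℂ)) (p : Pt w) : ℤ :=
  (lab L p).2.2 * (w.length + 1) + if (lab L p).1 then ((p.1 : ℕ) : ℤ) else w.length - (p.1 : ℕ)

theorem mu_lt {p q : Pt w} (h : (lab L p).2.2 = (lab L q).2.2 + 1) : mu L q < mu L p := by
  have := p.1.2; have := q.1.2
  simp only [mu, h, add_mul]
  split_ifs <;> omega

theorem below (m : Move) (n j' : ℕ) (hf : m.Fits n) (h : j' < m.top n) :
    (∃ j < n, Link m j j') ∨ m = .cup j' ∨ ∃ i, j' = i + 1 ∧ m = .cup i := by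
  cases m with
  | cup i =>
    simp only [Move.Fits, Move.top, Link, Move.Thru] at *
    by_cases h1 : j' < i
    · exact Or.inl ⟨j', by omega, Or.inl (by omega)⟩
    by_cases h2 : i + 2 ≤ j'
    · exact Or.inl ⟨j' - 2, by omega, Or.inl (by omega)⟩
    by_cases h3 : i = j'
    · simp only [h3, reduceCtorEq, false_and, exists_const, or_false, Move.cup.injEq, exists_eq_right', Nat.left_eq_add, one_ne_zero, or_true]
    · exact Or.inr (Or.inr ⟨i, by omega, rfl⟩)
  | cap i =>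
    simp only [Move.Fits, Move.top, Link, Move.Thru] at *
    by_cases h1 : j' < i
    · exact Or.inl ⟨j', by omega, Or.inl (by omega)⟩
    · exact Or.inl ⟨j' + 2, by omega, Or.inl (by omega)⟩
  | cross i b =>
    simp only [Move.Fits, Move.top, Link, Move.Thru] at *
    by_cases h1 : j' = i
    · exact Or.inl ⟨i + 1, by omega, Or.inr ⟨i, b, rfl, by omega⟩⟩
    by_cases h2 : j' = i + 1
    · exact Or.inl ⟨i, by omega, Or.inr ⟨i, b, rfl, by omega⟩⟩
    · exact Or.inl ⟨j', by omega, Or.inl (by omega)⟩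

theorem above (m : Move) (n j : ℕ) (hf : m.Fits n) (h : j < n) :
    (∃ j' < m.top n, Link m j j') ∨ m = .cap j ∨ ∃ i, j = i + 1 ∧ m = .cap i := by
  cases m with
  | cap i =>
    simp only [Move.Fits, Move.top, Link, Move.Thru] at *
    by_cases h1 : j < i
    · exact Or.inl ⟨j, by omega, Or.inl (by omega)⟩
    by_cases h2 : i + 2 ≤ j
    · exact Or.inl ⟨j - 2, by omega, Or.inl (by omega)⟩
    by_cases h3 : i = j
    · simp only [h3, lt_self_iff_false, false_and, add_le_iff_nonpos_right, nonpos_iff_eq_zero, OfNat.ofNat_ne_zero, or_self, reduceCtorEq, exists_const, and_false, Move.cap.injEq, exists_eq_right', Nat.left_eq_add, one_ne_zero, or_false, or_true]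
    · exact Or.inr (Or.inr ⟨i, by omega, rfl⟩)
  | cup i =>
    simp only [Move.Fits, Move.top, Link, Move.Thru] at *
    by_cases h1 : j < i
    · exact Or.inl ⟨j, by omega, Or.inl (by omega)⟩
    · exact Or.inl ⟨j + 2, by omega, Or.inl (by omega)⟩
  | cross i b =>
    simp only [Move.Fits, Move.top, Link, Move.Thru] at *
    by_cases h1 : j = i
    · exact Or.inl ⟨i + 1, by omega, Or.inr ⟨i, b, rfl, by omega⟩⟩
    by_cases h2 : j = i + 1
    · exact Or.inl ⟨i, by omega, Or.inr ⟨i, b, rfl, by omega⟩⟩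
    · exact Or.inl ⟨j, by omega, Or.inl (by omega)⟩

theorem Lv.pred (H : Lv T w L) (p : Pt w) (hp : ¬ ((p.1 : ℕ) = 1 ∧ (p.2 : ℕ) = 0)) :
    ∃ q, (Join p q ∨ Join q p) ∧ mu L q < mu L p := by
  have hk := p.1.2
  have hj : (p.2 : ℕ) < (L p.1).length := lt_of_lt_of_eq p.2.2 (H.wd p.1 (by omega))
  cases ho : (lab L p).1
  · have hlt : (p.1 : ℕ) < w.length := by
      by_contra hc
      have : (p.1 : ℕ) = w.length := by omega
      have : (L p.1).length = 0 := by rw [this, H.hN]; rfl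
      omega
    have hm : w[(p.1 : ℕ)]? = some w[(p.1 : ℕ)] := List.getElem?_eq_getElem hlt
    generalize w[(p.1 : ℕ)] = m at hm
    obtain ⟨l1, l2, l3, -⟩ := (H.hs _ _ hm).loc
    rcases above m _ p.2 l2 hj with ⟨j', h1, h2⟩ | rfl | ⟨i, hi, rfl⟩
    · obtain ⟨q, q1, q2, -⟩ := H.pt (k := p.1 + 1) (by omega)
        (List.getElem?_eq_getElem (l3 ▸ h1 : j' < _))
      obtain ⟨k1, k2, k3⟩ := H.link hm q1 (q2 ▸ h2)
      refine ⟨q, Or.inl k1, ?_⟩
      simp only [mu, k2, k3, ho, q1]; simp only [Bool.false_eq_true, ↓ reduceIte, Nat.cast_add, Nat.cast_one, add_lt_add_iff_left, sub_lt_sub_iff_left, lt_add_iff_pos_right, zero_lt_one]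
    · obtain ⟨o, c, h, h', e1, e2, e3⟩ := l1
      obtain ⟨q, q1, q2, q3⟩ := H.pt (by omega) e2
      have p3 := lab_eq rfl rfl e1
      refine ⟨q, Or.inl (Or.inr (Or.inl ⟨q1, q2, Or.inl hm⟩)), mu_lt ?_⟩
      rw [p3] at ho ⊢; simp at ho; simp [q3, e3, ho, sg]
    · obtain ⟨o, c, h, h', e1, e2, e3⟩ := l1
      obtain ⟨q, q1, q2, q3⟩ := H.pt (by omega) e1
      have p3 := lab_eq rfl hi e2
      refine ⟨q, Or.inr (Or.inr (Or.inl ⟨q1.symm, by omega, Or.inl (by rw [q2, q1]; exact hm)⟩)),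
        mu_lt ?_⟩
      rw [p3] at ho ⊢; simp at ho; simp [q3, e3, ho, sg]
  · obtain ⟨k, hk'⟩ : ∃ k, (p.1 : ℕ) = k + 1 := by
      refine Nat.exists_eq_add_one_of_ne_zero fun h => ?_
      have : (L p.1).length = 0 := by rw [h, H.h0]; rfl
      omega
    have hm : w[k]? = some w[k] := List.getElem?_eq_getElem (by omega)
    generalize w[k] = m at hm
    obtain ⟨l1, l2, l3, -⟩ := (H.hs _ _ hm).loc
    have hk0 : k ≠ 0 := by
      rintro rfl
      obtain ⟨c, h, c', h', e⟩ := H.h1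
      have : (p.2 : ℕ) = 1 := by
        have : (L p.1).length = 2 := by rw [hk', e]; rfl
        omega
      rw [lab_eq hk' this (x := (false, c', h')) (by simp [e])] at ho
      simp at ho
    rcases below m _ p.2 l2 (by rw [← l3, ← hk']; exact hj) with
      ⟨j', h1, h2⟩ | rfl | ⟨i, hi, rfl⟩
    · obtain ⟨q, q1, q2, -⟩ := H.pt (k := k) (by omega) (List.getElem?_eq_getElem h1)
      obtain ⟨k1, k2, k3⟩ := H.link (q := p) (q1 ▸ hm) (by omega) (q2 ▸ h2)
      refine ⟨q, Or.inr k1, ?_⟩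
      simp only [mu, ← k2, ← k3, ho, q1, hk']; simp only [↓ reduceIte, Nat.cast_add, Nat.cast_one, add_lt_add_iff_left, lt_add_iff_pos_right, zero_lt_one]
    · obtain ⟨o, c, h, h', e1, e2, e3⟩ := l1
      obtain ⟨q, q1, q2, q3⟩ := H.pt (by omega) e2
      have p3 := lab_eq hk' rfl e1
      refine ⟨q, Or.inl (Or.inr (Or.inl ⟨by omega, q2, Or.inr ⟨k, hk', hm⟩⟩)), mu_lt ?_⟩
      rw [p3] at ho ⊢; simp at ho; simp [q3, e3.resolve_left hk0, ho, sg]
    · obtain ⟨o, c, h, h', e1, e2, e3⟩ := l1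
      obtain ⟨q, q1, q2, q3⟩ := H.pt (by omega) e1
      have p3 := lab_eq hk' hi e2
      refine ⟨q, Or.inr (Or.inr (Or.inl ⟨by omega, by omega, Or.inr ⟨k, q1, q2 ▸ hm⟩⟩)), mu_lt ?_⟩
      rw [p3] at ho ⊢; simp at ho; simp [q3, e3.resolve_left hk0, ho, sg]

end Pool.Agent.MP_bc14f3_gt

end

-- part MP_bc14f3_gt.Alex
section

namespace Pool.Agent.MP_bc14f3_gt

open Polynomial

theorem gcd_root {ι : Type} (m : ι → ℤ[X]) (D : ℤ[X]) (hD : ∀ d, d ∣ D ↔ ∀ i, d ∣ m i)
    (i₀ : ι) (h0 : m i₀ ≠ 0) (α : ℂ) (h : ∀ i, aeval α (m i) = 0) : aeval α D = 0 := by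
  have hq : ∀ i, aeval α ((m i).map (algebraMap ℤ ℚ)) = 0 := fun i => by
    rw [aeval_map_algebraMap]; exact h i
  have hi : IsIntegral ℚ α := IsAlgebraic.isIntegral ⟨_, by
    rwa [Polynomial.map_ne_zero_iff (algebraMap ℤ ℚ).injective_int], hq i₀⟩
  set q := IsLocalization.integerNormalization (nonZeroDivisors ℤ) (minpoly ℚ α) with hqd
  have hq0 : q ≠ 0 := by
    rw [hqd, Ne, IsFractionRing.integerNormalization_eq_zero_iff]; exact minpoly.ne_zero hi
  obtain ⟨b, hb, e⟩ := IsLocalization.integerNormalization_spec (nonZeroDivisors ℤ) (minpoly ℚ α)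
  have hb0 : (b : ℚ) ≠ 0 := by exact_mod_cast nonZeroDivisors.ne_zero hb
  have : q.primPart ∣ D := (hD _).2 fun i => by
    refine q.isPrimitive_primPart.dvd_of_fraction_map_dvd_fraction_map (K := ℚ) ?_
    refine (Polynomial.map_dvd _ q.primPart_dvd).trans ?_
    rw [hqd, e]
    refine Dvd.dvd.trans ⟨C (b : ℚ)⁻¹, ?_⟩ (minpoly.dvd ℚ α (hq i))
    rw [zsmul_eq_mul, ← C_eq_intCast, mul_right_comm, ← C_mul, mul_inv_cancel₀ hb0]; simp only [map_one, one_mul]
  obtain ⟨r, rfl⟩ := this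
  rw [map_mul, aeval_primPart_eq_zero hq0
    (IsLocalization.integerNormalization_aeval_eq_zero _ _ (minpoly.aeval ℚ α)), zero_mul]

variable {T : Bool → ℂ} {w : List Move} {L : ℕ → List (Lb ℂ)}

theorem minor_eq_zero_iff (o : Pt w → Bool) (p : Pt w) (f : {q // q ≠ p} → Row o) (α : ℂ) :
    aeval α (minor o p f) = 0 ↔ ∃ v : Pt w → ℂ, v ≠ 0 ∧ v p = 0 ∧
      ∀ i, v (f i).1.2.2 = α * v (f i).1.2.1 + (1 - α) * v (f i).1.1 := by
  have key : ∀ (v : Pt w → ℂ), v p = 0 → ∀ r : Row o,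
      ∑ j : {q // q ≠ p}, aeval α (entry o r j) * v j =
        v r.1.2.2 - α * v r.1.2.1 - (1 - α) * v r.1.1 := by
    intro v hv r
    have := Fintype.sum_eq_add_sum_subtype_ne (fun j => aeval α (entry o r j) * v j) p
    rw [hv, mul_zero, zero_add] at this
    rw [← this]
    simp only [entry, mul_ite, mul_one, mul_zero, aeval_sub, apply_ite (aeval α), map_one, map_zero, aeval_X, sub_mul, ite_mul, one_mul, zero_mul, Finset.sum_sub_distrib, Finset.sum_ite_eq', Finset.mem_univ, ↓ reduceIte]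
  rw [minor, AlgHom.map_det, ← Matrix.exists_mulVec_eq_zero_iff]
  constructor
  · rintro ⟨v, hv, e⟩
    refine ⟨fun q => if h : q = p then 0 else v ⟨q, h⟩, fun h => hv ?_, by simp, fun i => ?_⟩
    · ext ⟨q, hq⟩
      simpa [hq] using congrFun h q
    · have h1 := key (fun q => if h : q = p then 0 else v ⟨q, h⟩) (by simp) (f i)
      have h2 := congrFun e i
      simp only [Matrix.mulVec, dotProduct, AlgHom.mapMatrix_apply, Matrix.map_apply,
        Matrix.of_apply, Pi.zero_apply] at h2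
      rw [Finset.sum_congr rfl fun j _ => by rw [dif_neg j.2], h2] at h1
      linear_combination -h1
  · rintro ⟨v, hv, h0, e⟩
    refine ⟨fun q => v q, fun h => hv ?_, ?_⟩
    · ext q
      by_cases hq : q = p
      · simp [hq, h0]
      · exact congrFun h ⟨q, hq⟩
    · ext i
      simp only [Matrix.mulVec, dotProduct, AlgHom.mapMatrix_apply, Matrix.map_apply,
        Matrix.of_apply, Pi.zero_apply]
      rw [key v h0, e i]; ring

theorem Join.rel (o : Pt w → Bool) {p q : Pt w} (h : Join p q) :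
    ∃ a, Rel o a p q ∨ Rel o a q p := by
  rcases h with h | h | ⟨b, x, y, h | h⟩
  · exact ⟨p, Or.inl (Or.inl ⟨rfl, Or.inl h⟩)⟩
  · exact ⟨p, Or.inl (Or.inl ⟨rfl, Or.inr h⟩)⟩
  · exact ⟨p, Or.inl (Or.inr ⟨b, q, x, y, h, Or.inl ⟨rfl, rfl⟩⟩)⟩
  · by_cases hb : b = o x
    · exact ⟨x, Or.inl (Or.inr ⟨b, y, p, q, h, Or.inr (Or.inl ⟨hb, rfl, rfl⟩)⟩)⟩
    · exact ⟨x, Or.inr (Or.inr ⟨b, y, p, q, h, Or.inr (Or.inr ⟨hb, rfl, rfl⟩)⟩)⟩

theorem mu_ind (L : ℕ → List (Lb ℂ)) (g : Pt w → Pt w) (P : Pt w → Prop) (p₀ : Pt w)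
    (hg : ∀ p, p ≠ p₀ → mu L (g p) < mu L p) (h0 : P p₀) (hs : ∀ p, p ≠ p₀ → P (g p) → P p)
    (p : Pt w) : P p := by
  have : IsTrans (Pt w) fun p q => mu L p < mu L q := ⟨fun _ _ _ => lt_trans⟩
  have : Std.Irrefl fun p q : Pt w => mu L p < mu L q := ⟨fun _ => lt_irrefl _⟩
  induction p using (Finite.wellFounded_of_trans_of_irrefl
    fun p q : Pt w => mu L p < mu L q).induction with
  | _ p ih =>
    by_cases hp : p = p₀
    · exact hp ▸ h0
    · exact hs p hp (ih _ (hg p hp))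

def Zero (α : ℂ) : Prop := ∃ (w : List Move) (o : Pt w → Bool) (D : ℤ[X]), IsKnot w ∧
  IsAlternating w ∧ IsOrientation o ∧ IsAlexander o D ∧ D ≠ 0 ∧ aeval α D = 0

theorem Lv.zero (H : Lv T w L) (x y : Pt w) (hxy : (lab L x).2.1 ≠ (lab L y).2.1) (φ : Bool) :
    Zero (T φ) := by
  classical
  obtain ⟨c, h, c', h', e⟩ := H.h1
  have hl : 1 ≤ w.length := by
    by_contra hc
    have := x.1.2
    have h1 : (x.1 : ℕ) = 0 := by omega
    have := H.spec x
    rw [show L x.1 = [] by rw [h1, H.h0]] at this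
    simp at this
  obtain ⟨p₀, a1, a2, -⟩ := H.pt (k := 1) (j := 0) hl (by rw [e]; rfl)
  have hp : ∀ p, ∃ q, p ≠ p₀ → (Join p q ∨ Join q p) ∧ mu L q < mu L p := by
    intro p
    by_cases hp : (p.1 : ℕ) = 1 ∧ (p.2 : ℕ) = 0
    · refine ⟨p, fun hn => (hn ?_).elim⟩
      obtain ⟨⟨k, hk⟩, ⟨j, hj⟩⟩ := p
      obtain ⟨⟨k', hk'⟩, ⟨j', hj'⟩⟩ := p₀
      simp only at hp a1 a2
      obtain ⟨rfl, rfl⟩ := hp
      subst a1 a2
      rfl
    · obtain ⟨q, hq⟩ := H.pred p hp
      exact ⟨q, fun _ => hq⟩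
  choose g hg using hp
  set o : Pt w → Bool := ori L (!φ)
  have : Fintype (Row o) := Subtype.fintype _
  have hr : ∀ p : {q // q ≠ p₀}, ∃ r : Row o, (r.1.2.1 = p ∧ r.1.2.2 = g p) ∨
      (r.1.2.1 = g p ∧ r.1.2.2 = p) := by
    intro p
    rcases (hg p p.2).1 with h | h <;> obtain ⟨a, h | h⟩ := h.rel o <;>
      exact ⟨⟨(a, _, _), h⟩, by simp⟩
  choose f hf using hr
  have hne : minor o p₀ f ≠ 0 := by
    intro h0
    obtain ⟨v, hv, v0, hv'⟩ := (minor_eq_zero_iff o p₀ f 1).1 (by simp [h0])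
    refine hv (funext (mu_ind L g (fun p => v p = 0) p₀ (fun p h => (hg p h).2) v0 fun p h h' => ?_))
    have := hv' ⟨p, h⟩
    rcases hf ⟨p, h⟩ with ⟨e1, e2⟩ | ⟨e1, e2⟩ <;> rw [e1, e2] at this <;> simp [h'] at this
    · exact this.symm
    · exact this
  have hD : ∀ d, d ∣ Finset.univ.gcd (fun x : (p : Pt w) × ({q // q ≠ p} → Row o) =>
      minor o x.1 x.2) ↔ ∀ x : (p : Pt w) × ({q // q ≠ p} → Row o), d ∣ minor o x.1 x.2 := by
    simp only [ne_eq, Finset.dvd_gcd_iff, Finset.mem_univ, forall_const, implies_true]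
  refine ⟨w, o, _, ⟨H.closed, ⟨x⟩, fun p q => ?_⟩, H.alt, H.orient _,
    fun d => (hD d).trans Sigma.forall, fun h0 => hne ?_,
    gcd_root _ _ hD ⟨p₀, f⟩ hne _ fun z => ?_⟩
  · have := mu_ind L g (fun p => Relation.EqvGen Join p p₀) p₀ (fun p h => (hg p h).2) (.refl _)
      fun p h h' => .trans _ _ _ ((hg p h).1.elim (.rel _ _) fun h => .symm _ _ (.rel _ _ h)) h'
    exact .trans _ _ _ (this p) (.symm _ _ (this q))
  · exact zero_dvd_iff.1 ((hD 0).1 (by rw [h0]) ⟨p₀, f⟩)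
  · refine (minor_eq_zero_iff o z.1 z.2 _).2 ⟨fun q => (lab L q).2.1 - (lab L z.1).2.1,
      fun h => hxy ?_, by simp, fun i => ?_⟩
    · have h1 := congrFun h x
      have h2 := congrFun h y
      simp only [Pi.zero_apply] at h1 h2
      linear_combination h1 - h2
    · have := H.col (!φ) (z.2 i).2
      rw [Bool.not_not] at this
      linear_combination this

end Pool.Agent.MP_bc14f3_gt

end

-- part MP_bc14f3_gt.Main
section

namespace Pool.Agent.MP_bc14f3_gt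

open Filter Topology Metric Complex

theorem Tan.zero {R : Type} [CommRing R] {T : Bool → R} {ρ : R} (hT : T true * T false = 1)
    (H : Tan T true false ρ) (f : R →+* ℂ) (hf : f ρ = 0) (φ : Bool) : Zero (f (T φ)) := by
  obtain ⟨w, k₁, k₂, H⟩ := H
  have h1 := (H 1 0 (1 - ρ) (-ρ) (3 + k₂) (3 + k₂ + k₁) (1 + k₂) 1 [] (by ring) (by ring)
    (by simp [tc])).map f
  simp only [List.map_cons, List.map_nil, mp, map_sub, map_neg, map_one, map_zero, hf, sub_zero,
    neg_zero] at h1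
  obtain ⟨L, l0, l1, l2⟩ := ((Run.sh2 (true, 0, 0) (false, 1, 2 + k₂) h1).append
    (Run.cons _ _ _ _ _ (Step.sh _ _ _ _ _ (Step.cap _ false _ _ _ _ (by simp [sg]; omega)))
      (Run.one (Step.cap _ true _ _ _ _ (by simp [sg]))))).levels
  generalize (w.map Move.sh).map Move.sh ++ [(Move.cap 0).sh, Move.cap 0] = w' at l1 l2
  let L' : ℕ → List (Lb ℂ) := fun k => match k with
    | 0 => []
    | 1 => [(true, 0, 0), (false, 0, 3 + k₂ + k₁)]
    | k + 2 => L k
  have key : Lv (fun b => f (T b)) (.cup 0 :: (Move.cup 0).sh :: w') L' := by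
    refine ⟨by rw [← map_mul, hT, map_one], rfl, l1, ?_, _, _, _, _, rfl⟩
    rintro (_ | _ | k) m hm
    · obtain rfl : Move.cup 0 = m := by simpa using hm
      exact Step.cup _ true _ _ _ _ (Or.inl rfl)
    · obtain rfl : (Move.cup 0).sh = m := by simpa using hm
      show Step _ _ _ _ _ (L 0)
      rw [l0]
      exact Step.sh _ _ _ _ _ (Step.cup _ false _ _ _ _ (Or.inr (by simp [sg]; omega)))
    · exact (l2 k m (by simpa only [List.getElem?_cons_succ] using hm)).mono False.elim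
  obtain ⟨x, -, -, hx⟩ := key.pt (k := 2) (j := 0) (by simp) (by show (L 0)[0]? = _; rw [l0]; rfl)
  obtain ⟨y, -, -, hy⟩ := key.pt (k := 2) (j := 1) (by simp) (by show (L 0)[1]? = _; rw [l0]; rfl)
  exact key.zero x y (by simp [hx, hy]) φ

def DA (c : ℂ) (r : ℝ) : Subalgebra ℂ C(closedBall c r, ℂ) where
  carrier := {f | ∃ F, DifferentiableOn ℂ F (ball c r) ∧ ∀ z : closedBall c r, F z = f z}
  mul_mem' := fun ⟨F, h, e⟩ ⟨G, h', e'⟩ => ⟨F * G, h.mul h', fun z => by simp [e, e']⟩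
  add_mem' := fun ⟨F, h, e⟩ ⟨G, h', e'⟩ => ⟨F + G, h.add h', fun z => by simp [e, e']⟩
  algebraMap_mem' := fun a => ⟨fun _ => a, differentiableOn_const a, fun z => by simp⟩

variable {c : ℂ} {r : ℝ}

theorem DA_closed : IsClosed (DA c r : Set C(closedBall c r, ℂ)) := by
  classical
  refine IsSeqClosed.isClosed fun f g hf hg => ?_
  choose F h e using hf
  refine ⟨fun z => if h : z ∈ closedBall c r then g ⟨z, h⟩ else 0,
    TendstoLocallyUniformlyOn.differentiableOn (φ := atTop) (F := F)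
      (TendstoUniformlyOn.tendstoLocallyUniformlyOn ?_) (Eventually.of_forall h) isOpen_ball,
    fun z => dif_pos z.2⟩
  rw [Metric.tendstoUniformlyOn_iff]
  intro ε hε
  filter_upwards [Metric.tendsto_nhds.1 hg ε hε] with n hn z hz
  have hz' := ball_subset_closedBall hz
  rw [dif_pos hz', e n ⟨z, hz'⟩, dist_comm]
  exact (ContinuousMap.dist_apply_le_dist _).trans_lt hn

theorem DA_mk (F : ℂ → ℂ) (hF : DifferentiableOn ℂ F (closedBall c r)) :
    ∃ f : DA c r, ∀ z : closedBall c r, f.1 z = F z :=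
  ⟨⟨⟨_, hF.continuousOn.domRestrict⟩, F, hF.mono ball_subset_closedBall, fun _ => rfl⟩, fun _ => rfl⟩

theorem DA_zero (hr : 0 < r) (f : DA c r) {δ : ℝ} (h0 : ‖f.1 ⟨c, mem_closedBall_self hr.le⟩‖ < δ)
    (h1 : ∀ z : closedBall c r, (z : ℂ) ∈ sphere c r → δ ≤ ‖f.1 z‖) : ∃ z, f.1 z = 0 := by
  by_contra hc
  push Not at hc
  obtain ⟨f, F, h, e⟩ := f
  have hδ := (norm_nonneg _).trans_lt h0
  have hn : ∀ z ∈ closedBall c r, F z ≠ 0 := fun z hz => by rw [e ⟨z, hz⟩]; exact hc _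
  have hF : DiffContOnCl ℂ F (ball c r) := ⟨h, by
    rw [closure_ball c hr.ne', continuousOn_iff_continuous_domRestrict]
    convert f.continuous using 1
    exact funext e⟩
  have := norm_le_of_forall_mem_frontier_norm_le (C := δ⁻¹) isBounded_ball
    (hF.inv (by rwa [closure_ball c hr.ne'])) (fun z hz => by
      rw [frontier_ball c hr.ne'] at hz
      rw [Pi.inv_apply, norm_inv, e ⟨z, sphere_subset_closedBall hz⟩]
      exact inv_anti₀ hδ (h1 _ hz)) (subset_closure (mem_ball_self hr))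
  rw [Pi.inv_apply, norm_inv, e ⟨c, mem_closedBall_self hr.le⟩,
    inv_le_inv₀ (norm_pos_iff.2 (hc _)) hδ] at this
  exact absurd h0 (not_lt.2 this)

theorem neg_pow_near {y : ℂ} (hy : y ≠ 0) :
    ∃ᶠ x in 𝓝 y, ∃ k : ℕ, ∃ a : ℝ, 0 < a ∧ x ^ (k + 1) = -(a : ℂ) := by
  have h0 : Tendsto (fun k : ℕ => -(arg (-y ^ (k + 1)) * I) * ((k + 1 : ℕ) : ℂ)⁻¹) atTop (𝓝 0) :=
    NormedField.tendsto_zero_smul_of_tendsto_zero_of_bounded (l := atTop) (E := ℂ)
      (f := fun k : ℕ => -(arg (-y ^ (k + 1)) * I))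
      ((tendsto_inv_atTop_nhds_zero_nat (𝕜 := ℂ)).comp (tendsto_add_atTop_nat 1))
      (isBoundedUnder_of ⟨Real.pi, fun k => by simpa using abs_arg_le_pi _⟩) |>.congr
      fun k => by simp only [mul_comm, Pi.smul_apply', Function.comp_apply, Nat.cast_add, Nat.cast_one, smul_eq_mul, mul_neg]
  have h1 := ((continuous_exp.tendsto 0).comp h0).const_mul y
  rw [exp_zero, mul_one] at h1
  refine h1.frequently (Frequently.of_forall fun k => ⟨k, ‖-y ^ (k + 1)‖, by simp [hy], ?_⟩)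
  have h2 : ((k + 1 : ℕ) : ℂ) ≠ 0 := Nat.cast_ne_zero.2 (by omega)
  have h3 := norm_mul_exp_arg_mul_I (-y ^ (k + 1))
  rw [mul_pow, Function.comp, ← exp_nat_mul, mul_comm (_ : ℂ) (_ * _⁻¹), inv_mul_cancel_right₀ h2,
    exp_neg, mul_inv_eq_iff_eq_mul₀ (exp_ne_zero _)]
  linear_combination h3

theorem hasD {z : ℂ} (hz : 1 < ‖z‖) : ∃ d ≠ 0,
    HasStrictDerivAt (fun z : ℂ => z * (z - 1)⁻¹ * (z - 1)⁻¹) d z := by
  have h1 : z - 1 ≠ 0 := fun h => by rw [sub_eq_zero.1 h] at hz; simp at hz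
  have h2 : z + 1 ≠ 0 := fun h => by rw [eq_neg_of_add_eq_zero_left h] at hz; simp at hz
  have h := (hasStrictDerivAt_inv h1).comp z ((hasStrictDerivAt_id z).sub_const 1)
  refine ⟨_, ?_, ((hasStrictDerivAt_id z).mul h).mul h⟩
  have : -(z + 1) / (z - 1) ^ 3 ≠ 0 := div_ne_zero (neg_ne_zero.2 h2) (pow_ne_zero _ h1)
  convert this using 1
  simp only [id, Pi.mul_apply, Function.comp]
  field_simp
  ring

theorem near (z₀ : ℂ) (hz : 1 < ‖z₀‖) : ∃ᶠ z in 𝓝 z₀, Zero (-z) ∧ Zero (-z⁻¹) := by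
  rw [frequently_iff]
  intro U hU
  obtain ⟨U', hU', ho, hm⟩ := _root_.mem_nhds_iff.1 (inter_mem hU
    ((isOpen_lt continuous_const continuous_norm).mem_nhds hz))
  have hne : ∀ z : ℂ, 1 < ‖z‖ → z ≠ 0 ∧ z - 1 ≠ 0 := fun z hz =>
    ⟨fun h => by simp [h] at hz; linarith, fun h => by rw [sub_eq_zero.1 h] at hz; simp at hz⟩
  obtain ⟨d, hd, hD⟩ := hasD hz
  have := neg_pow_near (y := z₀ * (z₀ - 1)⁻¹ * (z₀ - 1)⁻¹) (by simp [hne z₀ hz])
  rw [← hD.map_nhds_eq hd, frequently_map] at this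
  obtain ⟨c, ⟨k, a, ha, hc⟩, hcU⟩ := (this.and_eventually (ho.mem_nhds hm)).exists
  obtain ⟨d, hd, hD⟩ := hasD (hU' hcU).2
  have h1 := (hD.hasDerivAt.pow (k + 1)).eventually_ne (c := -(a : ℂ)) (by
    simp only [Nat.cast_add, Nat.cast_one, add_tsub_cancel_right, ne_eq, mul_eq_zero, Nat.cast_add_one_ne_zero, pow_eq_zero_iff', hne c (hU' hcU).2, inv_eq_zero, or_self, false_and, hd, not_false_eq_true])
  obtain ⟨r, hr, h2⟩ := nhds_basis_closedBall.eventually_iff.1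
    ((eventually_nhdsWithin_iff.1 h1).and (ho.mem_nhds hcU))
  have h3 : ∀ z ∈ closedBall c r, 1 < ‖z‖ := fun z hz => (hU' (h2 hz).2).2
  obtain ⟨u, hu⟩ := DA_mk (c := c) (r := r) id differentiableOn_id
  obtain ⟨v, hv⟩ := DA_mk (c := c) (r := r) (fun z => z⁻¹)
    (differentiableOn_id.inv fun z hz => (hne z (h3 z hz)).1)
  obtain ⟨g, hg⟩ := DA_mk (c := c) (r := r) (fun z => (z - 1)⁻¹)
    ((differentiableOn_id.sub_const 1).inv fun z hz => (hne z (h3 z hz)).2)
  have : CompleteSpace (DA c r) := DA_closed.completeSpace_coe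
  have P : Par (fun b => if b then -u else -v) u v g := by
    refine ⟨rfl, rfl, ?_, ?_⟩ <;> ext z <;> simp only [MulMemClass.coe_mul, ContinuousMap.mul_apply, hu, id_eq, hv, ne_eq, hne z (h3 z z.2), not_false_eq_true, mul_inv_cancel₀, OneMemClass.coe_one, ContinuousMap.one_apply, AddSubgroupClass.coe_sub, hg, ContinuousMap.sub_apply, inv_mul_cancel₀]
  have hv1 : ‖v‖ < 1 := (ContinuousMap.norm_lt_iff v.1 one_pos).2 fun z => by
    rw [hv, norm_inv]; exact inv_lt_one_of_one_lt₀ (h3 z z.2)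
  have G := ((P.good hv1 (k + 1)).add ((P.good hv1 0).smul (by
    simpa only [pow_zero, mul_one] using IsUnit.of_mul_eq_one _ P.gu) ha)) false
  generalize hF : g * (u * g * g) ^ (k + 1) + (a : ℂ) • (g * (u * g * g) ^ 0) = F at G
  have hF' : ∀ z : closedBall c r, F.1 z =
      (z - 1 : ℂ)⁻¹ * (((z : ℂ) * (z - 1 : ℂ)⁻¹ * (z - 1 : ℂ)⁻¹) ^ (k + 1) + a) := by
    intro z; simp [← hF, hu, hg]; ring
  obtain ⟨δ, hδ, h4⟩ := ((isClosed_sphere (x := c) (ε := r)).preimage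
    (continuous_subtype_val (p := (· ∈ closedBall c r)))).isCompact.exists_forall_le'
    (f := fun z => ‖F.1 z‖) (by fun_prop) (a := 0) fun z hz => by
      rw [norm_pos_iff, hF']
      refine mul_ne_zero (inv_ne_zero (hne z (h3 z z.2)).2) fun h => (h2 z.2).1 ?_
        (eq_neg_of_add_eq_zero_left h)
      intro h'
      simp [Set.mem_singleton_iff.1 h', hr.ne] at hz
  obtain ⟨f, hf, h5⟩ := Metric.mem_closure_iff.1 G (δ / 2) (by positivity)
  have h6 : ∀ z, ‖F.1 z - f.1 z‖ < δ / 2 := fun z => by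
    rw [← dist_eq_norm]; exact (ContinuousMap.dist_apply_le_dist _).trans_lt h5
  obtain ⟨z, h7⟩ := DA_zero hr f (δ := δ / 2) (by
    have := h6 ⟨c, mem_closedBall_self hr.le⟩
    rwa [hF', hc, neg_add_cancel, mul_zero, zero_sub, norm_neg] at this) fun z hz => by
      have := h4 z hz
      have := h6 z
      have := norm_sub_norm_le (F.1 z) (f.1 z)
      linarith
  have key := Tan.zero ((neg_mul_neg u v).trans P.uv) hf
    ((ContinuousMap.evalAlgHom ℂ ℂ z).comp (DA c r).val).toRingHom h7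
  exact ⟨z, (hU' (h2 z.2).2).1, by simpa only [AlgHom.toRingHom_eq_coe, ↓ reduceIte, RingHom.coe_coe, AlgHom.coe_comp, Subalgebra.coe_val, Function.comp_apply, NegMemClass.coe_neg, ContinuousMap.evalAlgHom_apply, ContinuousMap.neg_apply, hu, id_eq] using key true, by simpa only [AlgHom.toRingHom_eq_coe, Bool.false_eq_true, ↓ reduceIte, RingHom.coe_coe, AlgHom.coe_comp, Subalgebra.coe_val, Function.comp_apply, NegMemClass.coe_neg, ContinuousMap.evalAlgHom_apply, ContinuousMap.neg_apply, hv] using key false⟩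

theorem dense_zero : Dense {α : ℂ | α ≠ 0 ∧ Zero α} := by
  have h1 : ∀ z : ℂ, 1 < ‖z‖ → z ∈ closure {α : ℂ | α ≠ 0 ∧ Zero α} ∧
      z⁻¹ ∈ closure {α : ℂ | α ≠ 0 ∧ Zero α} := by
    intro z hz
    have h0 : -z ≠ 0 := fun h => by simp [neg_eq_zero.1 h] at hz; linarith
    have h := mem_closure_iff_frequently.2 ((near (-z) (by simpa using hz)).and_eventually
      (isOpen_ne.mem_nhds h0))
    have a := cl_map (S' := {α : ℂ | α ≠ 0 ∧ Zero α}) (fun x => -x) h (by fun_prop)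
      (Eventually.of_forall fun x hx => ⟨neg_ne_zero.2 hx.2, hx.1.1⟩)
    have b := cl_map (S' := {α : ℂ | α ≠ 0 ∧ Zero α}) (fun x => -x⁻¹) h (by fun_prop (disch := exact h0))
      (Eventually.of_forall fun x hx => ⟨neg_ne_zero.2 (inv_ne_zero hx.2), hx.1.2⟩)
    exact ⟨by simpa only [ne_eq, neg_neg] using a, by simpa only [ne_eq, inv_neg, neg_neg] using b⟩
  have h2 : Dense ((sphere (0 : ℂ) 1)ᶜ ∩ {0}ᶜ) :=
    Dense.inter_of_isOpen_right (interior_eq_empty_iff_dense_compl.1 (interior_sphere _ one_ne_zero))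
      (dense_compl_singleton 0) isOpen_compl_singleton
  refine dense_closure.1 (h2.mono ?_)
  rintro z ⟨a, b⟩
  rcases lt_or_gt_of_ne (show ‖z‖ ≠ 1 by simpa using a) with h | h
  · simpa only [ne_eq, inv_inv] using (h1 z⁻¹ (by rw [norm_inv]; exact one_lt_inv₀ (norm_pos_iff.2 b) |>.2 h)).2
  · exact (h1 z h).1

end Pool.Agent.MP_bc14f3_gt

end
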